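import Pool.Agent.helper75.S6D.Spec

/-!
# Project s6 (MP_2b41e9_nt), row s6:GOD
-/

set_option autoImplicit false

open Polynomial Finset

noncomputable section

namespace Pool.Agent.S6D

open Pool.Agent.PSA

/-- ROW s6:GOD -/
theorem GOD (hLOC : LOC_stmt) (hFC2 : FC2_stmt) (hIRR : IRR_stmt) (hSTB : STB_stmt) (hCEL : CEL_stmt)
    (hP6C : P6C_stmt) : GOD_stmt := by
  intro η Tm hη hη1
  obtain ⟨A₁, hA₁⟩ := hLOC η hη
  choose S hS using fun T : ℕ => hSTB η T hη hη1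
  refine ⟨⌈|A₁| + (∑ T ∈ Finset.range (Tm + 1), |S T|) + 2 / η + 20⌉₊, ?_⟩
  intro A b c hA hW hT hNI
  obtain ⟨T, hTm, hC⟩ := hT
  have hAr : |A₁| + (∑ T ∈ Finset.range (Tm + 1), |S T|) + 2 / η + 20 ≤ (A : ℝ) := by
    have h1 := Nat.le_ceil (|A₁| + (∑ T ∈ Finset.range (Tm + 1), |S T|) + 2 / η + 20)
    have h2 : ((⌈|A₁| + (∑ T ∈ Finset.range (Tm + 1), |S T|) + 2 / η + 20⌉₊ : ℕ) : ℝ) ≤ (A : ℝ) := by
      exact_mod_cast hA
    exact h1.trans h2
  have hsum0 : 0 ≤ ∑ T ∈ Finset.range (Tm + 1), |S T| := Finset.sum_nonneg fun i _ => abs_nonneg _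
  have hSle : |S T| ≤ ∑ T ∈ Finset.range (Tm + 1), |S T| :=
    Finset.single_le_sum (f := fun i => |S i|) (fun i _ => abs_nonneg _) (Finset.mem_range.mpr (by omega))
  have hA1 : A₁ ≤ (A : ℝ) := by
    have := le_abs_self A₁
    have h2 : 0 < 2 / η := by positivity
    linarith
  have hST : S T ≤ (A : ℝ) := by
    have := le_abs_self (S T)
    have h2 : 0 < 2 / η := by positivity
    have h3 := abs_nonneg A₁
    linarith
  have hAη : 2 / η + 20 ≤ (A : ℝ) := by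
    have h3 := abs_nonneg A₁
    linarith
  have hA0 : (0 : ℝ) < A := by
    have h2 : 0 < 2 / η := by positivity
    linarith
  obtain ⟨u, v, L, hRt, hu, hv, hL⟩ := hA₁ A b c hA1 hW
  obtain ⟨Λ, w, hΛ1, hΛL, hFac⟩ := hFC2 A b c u v L hRt hu hv hL
  have hirr := hIRR A b c u v L Λ hRt hu hv hL hΛ1 hΛL hNI
  obtain ⟨hmon, -⟩ := hP6C A b c
  obtain ⟨hSal, hmin⟩ := ALL_SLM 2 (P6 A b c) Λ w (by norm_num) hΛ1 hmon hirr hFac
  obtain ⟨hr1, hr2, hr3⟩ := hRt
  have hu' := abs_lt.mp hu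
  have hv' := abs_lt.mp hv
  have hinv0 : 0 < Λ⁻¹ := by positivity
  have hinv1 : Λ⁻¹ < 1 := inv_lt_one_of_one_lt₀ hΛ1
  have hq1 : |(-(u + v))| ≤ 4 := by
    rw [abs_le]
    constructor <;> linarith
  have huv : |u * v| ≤ 4 := by
    rw [abs_mul]
    have := mul_le_mul hu.le hv.le (abs_nonneg v) (by norm_num)
    linarith
  have huv' := abs_le.mp huv
  have hq1' := abs_le.mp hq1
  have hq1sq : (-(u + v)) ^ 2 ≤ 16 := by
    nlinarith
  have hx : (b : ℝ) / A - (-(u + v)) = ((-(u + v)) ^ 2 - u * v) / A := by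
    have hLe : L = A - u - v := by linarith
    rw [hr2, hLe]
    field_simp
    ring
  have hy : (c : ℝ) / A - (2 + u * v) = (u * v) * (-(u + v)) / A := by
    have hLe : L = A - u - v := by linarith
    rw [hr3, hLe]
    field_simp
    ring
  have hxb : |(b : ℝ) / A - (-(u + v))| ≤ 24 / A := by
    rw [hx, abs_div, abs_of_pos hA0]
    refine div_le_div_of_nonneg_right ?_ hA0.le
    rw [abs_le]
    constructor
    · nlinarith [sq_nonneg (-(u + v))]
    · linarith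
  have hyb : |(c : ℝ) / A - (2 + u * v)| ≤ 24 / A := by
    rw [hy, abs_div, abs_of_pos hA0]
    refine div_le_div_of_nonneg_right ?_ hA0.le
    rw [abs_mul]
    have := mul_le_mul huv hq1 (abs_nonneg _) (by norm_num)
    linarith
  obtain ⟨hW1, hW2, hW3⟩ := hW
  have hy6 : |(c : ℝ) / A| ≤ 6 := by
    have h1 := abs_nonneg ((b : ℝ) / A)
    have h2 : ((b : ℝ) / A) ^ 2 ≤ 16 := by
      rw [← sq_abs]
      nlinarith
    rw [abs_le]
    constructor <;> linarith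
  have hstb := hS T A hST ((b : ℝ) / A) ((c : ℝ) / A) (-(u + v)) (2 + u * v) hW1 hy6 hxb hyb hC
  have hΛinv : Λ⁻¹ < η / 2 := by
    have h1 : 2 / η < Λ := by linarith
    have h2 : 0 < 2 / η := by positivity
    have h3 := inv_strictAnti₀ h2 h1
    rwa [inv_div] at h3
  refine ⟨Λ, hSal, by linarith, hmin, T, hC.1, hTm, ?_⟩
  refine hCEL Λ (-(u + v)) (2 + u * v) (-A) (3 - b) (-c) T (cd ((b : ℝ) / A) ((c : ℝ) / A)) hΛ1 ?_ ?_ ?_ hC.1 rfl
    hC.2.1 ?_
  · rw [hΛL]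
    push_cast
    linarith
  · rw [hΛL]
    push_cast
    rw [hr2]
    ring
  · rw [hΛL]
    push_cast
    rw [hr3, hr1]
    ring
  · intro n hn
    refine ⟨rfl, ?_, (hstb n hn).2⟩
    exact lt_of_lt_of_le hΛinv (hstb n hn).1

end Pool.Agent.S6D
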