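import Pool.Agent.helper75.S6D.Spec

/-!
# Project s6 (MP_2b41e9_nt), row s6:INJ
-/

set_option autoImplicit false

open Polynomial Finset

noncomputable section

namespace Pool.Agent.S6D

open Pool.Agent.PSA

/-- ROW s6:INJ -/
theorem INJ : INJ_stmt := by
  intro β β' hβ hβ' h
  by_contra hne
  have h1 : Polynomial.aeval ((β' : ℝ) : ℂ) (minpoly ℤ β) = 0 := by
    have h2 : Polynomial.aeval (algebraMap ℝ ℂ β') (minpoly ℤ β') = 0 := by
      rw [Polynomial.aeval_algebraMap_apply, minpoly.aeval, map_zero]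
    rw [h]
    exact h2
  have h3 : ((β' : ℝ) : ℂ) ≠ (β : ℂ) := by
    intro h4
    exact hne (Complex.ofReal_injective h4).symm
  have h5 := hβ.2.2.1 _ h1 h3
  rw [Complex.norm_real, Real.norm_eq_abs] at h5
  have h6 := hβ'.2.1
  have h7 := le_abs_self β'
  linarith

end Pool.Agent.S6D
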